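import Mathlib

/-!
A subgroup of the Galois group of a Galois number field that contains all inertia groups is the
whole group (Minkowski).
-/

set_option autoImplicit false

namespace Pool.Agent.H559Z

open NumberField Module

theorem eq_top_of_inertia_le {L : Type*} [Field L] [NumberField L] [IsGalois ℚ L]
    (H : Subgroup Gal(L/ℚ))
    (hH : ∀ Q : Ideal (𝓞 L), Q.IsMaximal → Q.inertia Gal(L/ℚ) ≤ H) : H = ⊤ := by
  let E : IntermediateField ℚ L := FixedPoints.intermediateField H
  have hnE : NumberField E := inferInstance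
  have hg : IsGaloisGroup H E L := inferInstance
  have hgi : IsGaloisGroup H (𝓞 E) (𝓞 L) := IsGaloisGroup.of_isFractionRing H (𝓞 E) (𝓞 L) E L
  have hG : IsGaloisGroup Gal(L/ℚ) ℤ (𝓞 L) := inferInstance
  have hE : finrank ℚ E = 1 := by
    by_contra hne
    obtain ⟨q, hq, hram⟩ := NumberField.exists_not_isUnramifiedAt_int (K := E) (𝒪 := 𝓞 E) hne
    obtain ⟨Q, hQ, hQq⟩ := Ideal.exists_maximal_ideal_liesOver_of_isIntegral (S := 𝓞 L) q
    let p : Ideal ℤ := q.under ℤ
    have hqp : q.LiesOver p := ⟨rfl⟩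
    have hQp : Q.LiesOver p := Ideal.LiesOver.trans Q q p
    have hpm : p.IsMaximal := inferInstance
    have h1 : Nat.card (Q.inertia H) = q.ramificationIdxIn (𝓞 L) :=
      Ideal.card_inertia_eq_ramificationIdxIn (G := H) q Q
    have h2 : q.ramificationIdxIn (𝓞 L) = Q.ramificationIdx (𝓞 E) :=
      Ideal.ramificationIdxIn_eq_ramificationIdx q Q H
    have h3 : Nat.card (Q.inertia Gal(L/ℚ)) = p.ramificationIdxIn (𝓞 L) :=
      Ideal.card_inertia_eq_ramificationIdxIn (G := Gal(L/ℚ)) p Q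
    have h4 : p.ramificationIdxIn (𝓞 L) = Q.ramificationIdx ℤ :=
      Ideal.ramificationIdxIn_eq_ramificationIdx p Q Gal(L/ℚ)
    have h5 : Nat.card (Q.inertia H) = Nat.card (Q.inertia Gal(L/ℚ)) := by
      have := Nat.card_congr (Subgroup.subgroupOfEquivOfLe (hH Q hQ)).toEquiv
      rw [← this]
      rfl
    have h6 : Q.ramificationIdx ℤ = q.ramificationIdx ℤ * Q.ramificationIdx (𝓞 E) :=
      Ideal.ramificationIdx_tower q Q
    have h7 : 0 < Nat.card (Q.inertia H) := Nat.card_pos
    apply hram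
    rw [← Ideal.ramificationIdx_eq_one_iff]
    have h8 : Q.ramificationIdx (𝓞 E) = q.ramificationIdx ℤ * Q.ramificationIdx (𝓞 E) := by
      rw [← h6, ← h4, ← h3, ← h5, h1, h2]
    have h9 : 0 < Q.ramificationIdx (𝓞 E) := by rw [← h2, ← h1]; exact h7
    have : q.ramificationIdx ℤ * Q.ramificationIdx (𝓞 E) = 1 * Q.ramificationIdx (𝓞 E) := by
      rw [one_mul]; exact h8.symm
    exact Nat.eq_of_mul_eq_mul_right h9 this
  have hc : Nat.card H = finrank E L := IsGaloisGroup.card_eq_finrank H E L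
  have hc' : Nat.card Gal(L/ℚ) = finrank ℚ L := IsGalois.card_aut_eq_finrank ℚ L
  have ht : finrank ℚ E * finrank E L = finrank ℚ L := Module.finrank_mul_finrank ℚ E L
  apply Subgroup.eq_top_of_card_eq
  rw [hc, hc', ← ht, hE, one_mul]

end Pool.Agent.H559Z
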