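import Mathlib

/-!
Inertia acts on the roots of `X^m (2X+1) + (X+2)`, `m = 6j+2`, with orbits of size at most three.
-/

set_option autoImplicit false

namespace Pool.Agent.H559Z

open NumberField Polynomial

/-- The equation `r^m (2r+1) + (r+2) = 0` with `m = 6j+2`. -/
def IsRt {R : Type*} [CommRing R] (j : ℕ) (r : R) : Prop :=
  r ^ (6 * j + 2) * (2 * r + 1) + (r + 2) = 0

theorem not_pow_four_dvd {k : Type*} [CommRing k] [Nontrivial k] (j : ℕ) (c : k) :
    ¬ (X - C c) ^ 4 ∣ (X ^ (6 * j + 2) * (2 * X + 1) + (X + 2) : k[X]) := by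
  intro h
  set P : k[X] := X ^ (6 * j + 2) * (2 * X + 1) + (X + 2) with hP
  have h1 : (X - C c) ^ 3 ∣ derivative P := by
    simpa using pow_sub_one_dvd_derivative_of_pow_dvd h
  have h2 : (X - C c) ^ 3 ∣ P := (pow_dvd_pow _ (by norm_num)).trans h
  set m : k := ((6 * j + 2 : ℕ) : k) with hm
  have hd : X * derivative P = X ^ (6 * j + 2) * (C m * (2 * X + 1) + 2 * X) + X := by
    have e : derivative P = C m * X ^ (6 * j + 1) * (2 * X + 1) + X ^ (6 * j + 2) * 2 + 1 := by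
      rw [hP, derivative_add, derivative_mul, derivative_X_pow]
      simp [hm]
    rw [e]; ring
  have hW : (C m * (2 * X + 1) + 2 * X) * P - (2 * X + 1) * (X * derivative P)
      = C (2 * m) * X ^ 2 + C (5 * m + 3) * X + C (2 * m) := by
    rw [hd, hP]
    simp only [map_mul, map_add, map_ofNat]
    ring
  have h3 : (X - C c) ^ 3 ∣ C (2 * m) * X ^ 2 + C (5 * m + 3) * X + C (2 * m) := by
    rw [← hW]
    exact dvd_sub (h2.mul_left _) ((h1.mul_left _).mul_left _)
  have hne : (C (2 * m) * X ^ 2 + C (5 * m + 3) * X + C (2 * m) : k[X]) ≠ 0 := by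
    intro h0
    have a0 := congrArg (fun p => coeff p 0) h0
    have a1 := congrArg (fun p => coeff p 1) h0
    simp only [coeff_add, coeff_C_mul, coeff_X_pow, coeff_X, coeff_C, coeff_zero] at a0 a1
    norm_num at a0 a1
    have hm' : m = 6 * (j : k) + 2 := by rw [hm]; push_cast; ring
    have h6 : (6 : k) = 0 := by linear_combination 2 * a1 - 5 * a0
    have : (1 : k) = 0 := by
      rw [hm'] at a0 a1
      linear_combination (-3 + 6 * (j : k)) * h6 - 3 * a0 + a1 + (3 - 5 * (j : k)) * h6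
    exact one_ne_zero this
  have hmon : ((X - C c) ^ 3 : k[X]).Monic := (monic_X_sub_C c).pow 3
  refine hmon.not_dvd_of_natDegree_lt hne ?_ h3
  rw [(monic_X_sub_C c).natDegree_pow, natDegree_X_sub_C]
  exact lt_of_le_of_lt natDegree_quadratic_le (by norm_num)

theorem four_roots_false {O : Type*} [CommRing O] [IsDomain O] (M : Ideal O) (hM : M ≠ ⊤) (j : ℕ)
    (r : Fin 4 → O) (hinj : Function.Injective r) (hr : ∀ i, IsRt j (r i))
    (hc : ∀ i, r i - r 0 ∈ M) : False := by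
  classical
  have : Nontrivial (O ⧸ M) := Ideal.Quotient.nontrivial_iff.mpr hM
  set P : O[X] := X ^ (6 * j + 2) * (2 * X + 1) + (X + 2) with hP
  have hdvd : ∏ i, (X - C (r i)) ∣ P := by
    by_cases h0 : P = 0
    · rw [h0]; exact dvd_zero _
    have := (Multiset.prod_X_sub_C_dvd_iff_le_roots h0 (Finset.univ.val.map r)).mpr ?_
    · rw [Multiset.map_map] at this
      exact this
    · rw [Multiset.le_iff_subset (Multiset.Nodup.map hinj Finset.univ.nodup)]
      intro x hx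
      obtain ⟨i, -, rfl⟩ := Multiset.mem_map.mp hx
      rw [mem_roots h0, IsRoot.def, hP]
      simpa [IsRt] using hr i
  have h2 := Polynomial.map_dvd (Ideal.Quotient.mk M) hdvd
  apply not_pow_four_dvd j (Ideal.Quotient.mk M (r 0))
  have e1 : (∏ i, (X - C (r i))).map (Ideal.Quotient.mk M)
      = (X - C (Ideal.Quotient.mk M (r 0))) ^ 4 := by
    rw [Polynomial.map_prod]
    have : ∀ i, (X - C (r i)).map (Ideal.Quotient.mk M) = X - C (Ideal.Quotient.mk M (r 0)) := by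
      intro i
      rw [Polynomial.map_sub, map_X, map_C, (Ideal.Quotient.eq).mpr (hc i)]
    simp [this]
  have e2 : P.map (Ideal.Quotient.mk M) = X ^ (6 * j + 2) * (2 * X + 1) + (X + 2) := by
    simp [hP]
  rwa [e1, e2] at h2

theorem IsRt.ne_zero {L : Type*} [Field L] [CharZero L] {j : ℕ} {r : L} (h : IsRt j r) :
    r ≠ 0 := by
  rintro rfl
  simp [IsRt] at h

theorem IsRt.inv {L : Type*} [Field L] [CharZero L] {j : ℕ} {r : L} (h : IsRt j r) :
    IsRt j r⁻¹ := by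
  have h0 := h.ne_zero
  unfold IsRt at *
  have : r⁻¹ ^ (6 * j + 2) * (2 * r⁻¹ + 1) + (r⁻¹ + 2)
      = r⁻¹ ^ (6 * j + 3) * (r ^ (6 * j + 2) * (2 * r + 1) + (r + 2)) := by
    have e : r⁻¹ * r = 1 := inv_mul_cancel₀ h0
    have e2 : r⁻¹ ^ (6 * j + 2) * r ^ (6 * j + 2) = 1 := by rw [← mul_pow, e, one_pow]
    linear_combination (-(2 * r * r⁻¹ + r⁻¹)) * e2 - (2 + r⁻¹ ^ (6 * j + 2)) * e
  rw [this, h, mul_zero]

theorem IsRt.map {R S : Type*} [CommRing R] [CommRing S] {F : Type*} [FunLike F R S]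
    [RingHomClass F R S] (f : F) {j : ℕ} {r : R} (h : IsRt j r) : IsRt j (f r) := by
  unfold IsRt at *
  have := congrArg f h
  simpa [map_ofNat] using this

theorem IsRt.isIntegral_two_mul {L : Type*} [Field L] {j : ℕ} {r : L} (h : IsRt j r) :
    IsIntegral ℤ (2 * r) := by
  refine ⟨X ^ (6 * j + 3) + (X ^ (6 * j + 2) + C (2 ^ (6 * j + 1)) * X + C (2 ^ (6 * j + 3))),
    ?_, ?_⟩
  · apply Monic.add_of_left (monic_X_pow _)
    rw [degree_X_pow]
    refine lt_of_le_of_lt (degree_add_le _ _) (max_lt (lt_of_le_of_lt (degree_add_le _ _)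
      (max_lt ?_ ?_)) ?_)
    · rw [degree_X_pow]; exact_mod_cast by omega
    · exact lt_of_le_of_lt (degree_C_mul_X_le _) (by exact_mod_cast by omega)
    · exact lt_of_le_of_lt degree_C_le (by exact_mod_cast by omega)
  · unfold IsRt at h
    simp only [eval₂_add, eval₂_mul, eval₂_X_pow, eval₂_C, eval₂_X]
    simp only [eq_intCast, Int.cast_ofNat, Int.cast_pow]
    linear_combination (2 : L) ^ (6 * j + 2) * h

theorem IsRt.isIntegral_mul {L : Type*} [Field L] {j : ℕ} {r : L} (h : IsRt j r) :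
    IsIntegral ℤ ((2 * r + 1) * r) := by
  have hs : IsIntegral ℤ (2 * r + 1) := h.isIntegral_two_mul.add isIntegral_one
  let A := integralClosure ℤ L
  let s : A := ⟨2 * r + 1, hs⟩
  have : IsIntegral A ((2 * r + 1) * r) := by
    refine ⟨X ^ (6 * j + 2) + (C (s ^ (6 * j)) * X + C (2 * s ^ (6 * j + 1))), ?_, ?_⟩
    · apply Monic.add_of_left (monic_X_pow _)
      rw [degree_X_pow]
      refine lt_of_le_of_lt (degree_add_le _ _) (max_lt ?_ ?_)
      · exact lt_of_le_of_lt (degree_C_mul_X_le _) (by exact_mod_cast by omega)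
      · exact lt_of_le_of_lt degree_C_le (by exact_mod_cast by omega)
    · unfold IsRt at h
      have hs' : algebraMap A L s = 2 * r + 1 := rfl
      simp only [eval₂_add, eval₂_mul, eval₂_X_pow, eval₂_C, eval₂_X]
      simp only [map_pow, map_mul, hs', map_ofNat, mul_pow]
      linear_combination (2 * r + 1) ^ (6 * j + 1) * h
  exact isIntegral_trans _ this

section
variable {L : Type*} [Field L] [NumberField L]

/-- The localisation of the ring of integers at a prime, as a subring of the field. -/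
def locRing (Q : Ideal (𝓞 L)) [hQ : Q.IsPrime] : Subring L where
  carrier := {y | ∃ a s : 𝓞 L, s ∉ Q ∧ y * algebraMap (𝓞 L) L s = algebraMap (𝓞 L) L a}
  mul_mem' := by
    rintro x y ⟨a, s, hs, h⟩ ⟨b, t, ht, h'⟩
    refine ⟨a * b, s * t, fun hm => (hQ.mem_or_mem hm).elim hs ht, ?_⟩
    simp only [map_mul, map_add, Subring.coe_add]
    rw [← h, ← h']; ring
  one_mem' := ⟨1, 1, fun h => hQ.ne_top ((Ideal.eq_top_iff_one _).mpr h), by simp⟩
  add_mem' := by
    rintro x y ⟨a, s, hs, h⟩ ⟨b, t, ht, h'⟩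
    refine ⟨a * t + b * s, s * t, fun hm => (hQ.mem_or_mem hm).elim hs ht, ?_⟩
    simp only [map_mul, map_add, Subring.coe_add]
    rw [← h, ← h']; ring
  zero_mem' := ⟨0, 1, fun h => hQ.ne_top ((Ideal.eq_top_iff_one _).mpr h), by simp⟩
  neg_mem' := by
    rintro x ⟨a, s, hs, h⟩
    refine ⟨-a, s, hs, ?_⟩
    simp only [map_neg]
    rw [← h]; ring

/-- Its maximal ideal. -/
def locIdeal (Q : Ideal (𝓞 L)) [hQ : Q.IsPrime] : Ideal (locRing Q) where
  carrier := {y | ∃ a s : 𝓞 L, a ∈ Q ∧ s ∉ Q ∧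
    (y : L) * algebraMap (𝓞 L) L s = algebraMap (𝓞 L) L a}
  add_mem' := by
    rintro x y ⟨a, s, ha, hs, h⟩ ⟨b, t, hb, ht, h'⟩
    refine ⟨a * t + b * s, s * t, Q.add_mem (Q.mul_mem_right _ ha) (Q.mul_mem_right _ hb),
      fun hm => (hQ.mem_or_mem hm).elim hs ht, ?_⟩
    simp only [map_mul, map_add, Subring.coe_add]
    rw [← h, ← h']; ring
  zero_mem' := ⟨0, 1, Q.zero_mem, fun h => hQ.ne_top ((Ideal.eq_top_iff_one _).mpr h), by simp⟩
  smul_mem' := by
    rintro c x ⟨a, s, ha, hs, h⟩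
    obtain ⟨b, t, ht, h'⟩ := c.2
    refine ⟨b * a, t * s, Q.mul_mem_left _ ha, fun hm => (hQ.mem_or_mem hm).elim ht hs, ?_⟩
    simp only [smul_eq_mul, Subring.coe_mul, map_mul]
    rw [← h, ← h']
    ring

omit [NumberField L] in
theorem locIdeal_ne_top (Q : Ideal (𝓞 L)) [hQ : Q.IsPrime] : locIdeal Q ≠ ⊤ := by
  rw [Ne, Ideal.eq_top_iff_one]
  rintro ⟨a, s, ha, hs, h⟩
  apply hs
  have : s = a := by
    apply RingOfIntegers.ext
    simpa using h
  rwa [this]

theorem IsRt.mem_or_inv_mem (Q : Ideal (𝓞 L)) [hQ : Q.IsPrime] {j : ℕ} {r : L} (h : IsRt j r) :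
    r ∈ locRing Q ∨ r⁻¹ ∈ locRing Q := by
  let u : 𝓞 L := ⟨2 * r, h.isIntegral_two_mul⟩
  let y : 𝓞 L := ⟨(2 * r + 1) * r, h.isIntegral_mul⟩
  by_cases hs : u + 1 ∈ Q
  · right
    refine ⟨2, u, fun hu => ?_, ?_⟩
    · apply hQ.ne_top
      rw [Ideal.eq_top_iff_one]
      simpa using Q.sub_mem hs hu
    · have h0 := h.ne_zero
      rw [map_ofNat]
      change r⁻¹ * (2 * r) = 2
      field_simp
  · left
    refine ⟨y, u + 1, hs, ?_⟩
    change r * (2 * r + 1) = (2 * r + 1) * r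
    ring

theorem inertia_loc (Q : Ideal (𝓞 L)) [hQ : Q.IsPrime] (σ : Gal(L/ℚ))
    (hσ : σ ∈ Q.inertia Gal(L/ℚ)) (y : locRing Q) :
    ∃ h : σ y ∈ locRing Q, (⟨σ y, h⟩ : locRing Q) - y ∈ locIdeal Q := by
  obtain ⟨y, a, s, hs, h⟩ := y
  have hs' : σ • s ∉ Q := by
    intro hm
    apply hs
    have := Q.sub_mem hm (hσ s)
    simpa using this
  have hco : ∀ x : 𝓞 L, algebraMap (𝓞 L) L (σ • x) = σ (algebraMap (𝓞 L) L x) := fun x => rfl
  have h' : σ y * algebraMap (𝓞 L) L (σ • s) = algebraMap (𝓞 L) L (σ • a) := by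
    rw [hco, hco, ← map_mul, h]
  refine ⟨⟨σ • a, σ • s, hs', h'⟩, (σ • a - a) * s - a * (σ • s - s), (σ • s) * s,
    Q.sub_mem (Q.mul_mem_right _ (hσ a)) (Q.mul_mem_left _ (hσ s)),
    fun hm => (hQ.mem_or_mem hm).elim hs' hs, ?_⟩
  simp only [map_mul, map_sub, AddSubgroupClass.coe_sub]
  rw [← h', ← h]
  ring

theorem pow_six_of_mem (Q : Ideal (𝓞 L)) [hQ : Q.IsPrime] (σ : Gal(L/ℚ))
    (hσ : σ ∈ Q.inertia Gal(L/ℚ)) {j : ℕ} {r : L} (h : IsRt j r) (hr : r ∈ locRing Q) :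
    (σ ^ 6) r = r := by
  by_contra hne
  have key : ∀ d : ℕ, d ∣ 6 → (σ ^ d) r ≠ r := by
    rintro d ⟨e, he⟩ hd
    apply hne
    rw [he, pow_mul]
    clear he
    induction e with
    | zero => simp
    | succ e ih => rw [pow_succ, AlgEquiv.mul_apply, hd, ih]
  have hmem : ∀ i : ℕ, σ ^ i ∈ Q.inertia Gal(L/ℚ) := fun i => Subgroup.pow_mem _ hσ i
  let ρ : Fin 4 → locRing Q := fun i =>
    ⟨(σ ^ (i : ℕ)) r, (inertia_loc Q _ (hmem i) ⟨r, hr⟩).1⟩
  have hlt : ∀ a b : ℕ, a < b → b < 4 → (σ ^ a) r ≠ (σ ^ b) r := by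
    intro a b hab hb he
    obtain ⟨d, rfl⟩ := Nat.exists_eq_add_of_lt hab
    rw [add_assoc, pow_add, AlgEquiv.mul_apply] at he
    have := (σ ^ a).injective he
    refine key (d + 1) ?_ this.symm
    have : d < 3 := by omega
    interval_cases d <;> norm_num
  refine four_roots_false (locIdeal Q) (locIdeal_ne_top Q) j ρ ?_ ?_ ?_
  · intro a b hab
    have he : (σ ^ (a : ℕ)) r = (σ ^ (b : ℕ)) r := congrArg Subtype.val hab
    rcases lt_trichotomy (a : ℕ) b with h1 | h1 | h1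
    · exact absurd he (hlt _ _ h1 b.2)
    · exact Fin.ext h1
    · exact absurd he.symm (hlt _ _ h1 a.2)
  · intro i
    have := h.map (σ ^ (i : ℕ))
    unfold IsRt at this ⊢
    apply Subtype.ext
    exact this
  · intro i
    have := (inertia_loc Q _ (hmem i) ⟨r, hr⟩).2
    have e : ρ 0 = ⟨r, hr⟩ := by
      apply Subtype.ext
      simp [ρ]
    rw [e]
    exact this

theorem pow_six (Q : Ideal (𝓞 L)) [hQ : Q.IsPrime] (σ : Gal(L/ℚ))
    (hσ : σ ∈ Q.inertia Gal(L/ℚ)) {j : ℕ} {r : L} (h : IsRt j r) : (σ ^ 6) r = r := by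
  rcases h.mem_or_inv_mem Q with h1 | h1
  · exact pow_six_of_mem Q σ hσ h h1
  · have := pow_six_of_mem Q σ hσ h.inv h1
    rw [map_inv₀] at this
    exact inv_injective this

end

end Pool.Agent.H559Z
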