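import Mathlib
import Pool.Agent.H559Z.Local

/-!
Height estimates: a lower bound for totally real numbers and an upper bound for the roots of
`X^m (2X+1) + (X+2)`.
-/

set_option autoImplicit false

namespace Pool.Agent.H559Z

open NumberField Height

theorem real_ineq (t : ℝ) : |t ^ 3 - t| ≤ (1 / 2) * (max |t| 1) ^ 4 := by
  have key : ∀ s : ℝ, 0 ≤ s → |s ^ 3 - s| ≤ (1 / 2) * (max s 1) ^ 4 := by
    intro s hs
    rcases le_total s 1 with h | h
    · rw [max_eq_right h, abs_le]
      constructor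
      · nlinarith [mul_nonneg hs (sq_nonneg (s - 3 / 5)), sq_nonneg (s - 3 / 5)]
      · nlinarith [mul_nonneg hs (mul_nonneg (sub_nonneg.mpr h) (by linarith : 0 ≤ 1 + s))]
    · rw [max_eq_left h, abs_le]
      constructor
      · nlinarith [mul_nonneg hs (mul_nonneg (sub_nonneg.mpr h) (by linarith : 0 ≤ 1 + s)),
          pow_nonneg hs 4]
      · have : 0 ≤ s ^ 3 - 2 * s ^ 2 + 2 := by
          nlinarith [mul_nonneg hs (sq_nonneg (s - 4 / 3)), sq_nonneg (s - 4 / 3)]
        nlinarith [mul_nonneg hs this]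
  rcases le_total 0 t with h | h
  · rw [abs_of_nonneg h]; exact key t h
  · have := key (-t) (by linarith)
    rw [abs_of_nonpos h]
    have e : t ^ 3 - t = -((-t) ^ 3 - (-t)) := by ring
    rw [e, abs_neg]
    exact this

theorem mulHeight_lower {K : Type*} [Field K] [NumberField K] (x : K)
    (hreal : ∀ φ : K →+* ℂ, (φ x).im = 0) (hx : x ^ 3 - x ≠ 0) :
    (2 : ℝ) ^ Module.finrank ℚ K ≤ mulHeight₁ x ^ 4 := by
  have hprod := prod_abs_eq_one hx
  rw [NumberField.mulHeight₁_eq, mul_pow]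
  have h1 : ∏ v : InfinitePlace K, v (x ^ 3 - x) ^ v.mult
      ≤ ∏ v : InfinitePlace K, ((1 / 2) * (max (v x) 1) ^ 4) ^ v.mult := by
    apply Finset.prod_le_prod
    · intro v _; positivity
    · intro v _
      apply pow_le_pow_left₀ (apply_nonneg _ _)
      rw [← v.norm_embedding_eq, ← v.norm_embedding_eq x]
      have e : v.embedding x = ((v.embedding x).re : ℂ) := by
        apply Complex.ext <;> simp [hreal]
      rw [map_sub, map_pow, e]
      have := real_ineq (v.embedding x).re
      rw [← Complex.ofReal_pow, ← Complex.ofReal_sub, Complex.norm_real, Complex.norm_real]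
      exact this
  have h2 : ∏ v : InfinitePlace K, ((1 / 2) * (max (v x) 1) ^ 4) ^ v.mult
      = (1 / 2 : ℝ) ^ Module.finrank ℚ K
        * (∏ v : InfinitePlace K, max (v x) 1 ^ v.mult) ^ 4 := by
    simp_rw [mul_pow]
    rw [Finset.prod_mul_distrib, Finset.prod_pow_eq_pow_sum, InfinitePlace.sum_mult_eq,
      ← Finset.prod_pow]
    congr 1
    apply Finset.prod_congr rfl
    intro v _
    ring
  have hx0 : x ≠ 0 := by rintro rfl; simp at hx
  have hfin : (Function.mulSupport fun v : FinitePlace K => max (v x) 1).Finite := by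
    refine (FinitePlace.hasFiniteMulSupport hx0).subset ?_
    intro v hv h
    apply hv
    simp only at h
    simp [h]
  have h3 : ∏ᶠ v : FinitePlace K, v (x ^ 3 - x) ≤ (∏ᶠ v : FinitePlace K, max (v x) 1) ^ 4 := by
    rw [finprod_pow hfin]
    apply finprod_le_finprod (FinitePlace.hasFiniteMulSupport hx)
    · intro v; exact apply_nonneg _ _
    · refine hfin.subset ?_
      intro v hv h
      apply hv
      simp only at h
      simp [h]
    · intro v
      have hM : (1 : ℝ) ≤ max (v x) 1 := le_max_right _ _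
      have hv : v x ≤ max (v x) 1 := le_max_left _ _
      have h0 : 0 ≤ v x := apply_nonneg _ _
      have : v (x ^ 3 - x) ≤ max (v (x ^ 3)) (v x) := by
        have := FinitePlace.add_le v (x ^ 3) (-x)
        rwa [← sub_eq_add_neg, map_neg_eq_map] at this
      refine this.trans (max_le ?_ ?_)
      · rw [map_pow]
        calc v x ^ 3 ≤ (max (v x) 1) ^ 3 := pow_le_pow_left₀ h0 hv 3
          _ ≤ (max (v x) 1) ^ 4 := pow_le_pow_right₀ hM (by norm_num)
      · calc v x ≤ (max (v x) 1) ^ 1 := by simp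
          _ ≤ (max (v x) 1) ^ 4 := pow_le_pow_right₀ hM (by norm_num)
  have h4 : (1 : ℝ) ≤ (1 / 2 : ℝ) ^ Module.finrank ℚ K
        * (∏ v : InfinitePlace K, max (v x) 1 ^ v.mult) ^ 4
        * (∏ᶠ v : FinitePlace K, max (v x) 1) ^ 4 := by
    rw [← h2]
    refine hprod.symm.le.trans ?_
    apply mul_le_mul h1 h3
    · exact finprod_nonneg fun v => apply_nonneg _ _
    · exact Finset.prod_nonneg fun v _ => by positivity
  have h5 : (2 : ℝ) ^ Module.finrank ℚ K * (1 / 2 : ℝ) ^ Module.finrank ℚ K = 1 := by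
    rw [← mul_pow]; norm_num
  have h6 : (0 : ℝ) < (2 : ℝ) ^ Module.finrank ℚ K := by positivity
  calc (2 : ℝ) ^ Module.finrank ℚ K = (2 : ℝ) ^ Module.finrank ℚ K * 1 := by ring
    _ ≤ (2 : ℝ) ^ Module.finrank ℚ K * ((1 / 2 : ℝ) ^ Module.finrank ℚ K
        * (∏ v : InfinitePlace K, max (v x) 1 ^ v.mult) ^ 4
        * (∏ᶠ v : FinitePlace K, max (v x) 1) ^ 4) := by gcongr
    _ = _ := by rw [mul_assoc, ← mul_assoc, h5, one_mul]

theorem logHeight_upper {K : Type*} [Field K] [NumberField K] {j : ℕ} {x : K} (h : IsRt j x) :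
    (6 * j : ℝ) * logHeight₁ x ≤ 4 * Module.finrank ℚ K * Real.log 2 := by
  have hs : 2 * x + 1 ≠ 0 := by
    intro h0
    unfold IsRt at h
    rw [h0, mul_zero, zero_add] at h
    have : (3 : K) = 0 := by linear_combination 2 * h - h0
    norm_num at this
  have e : x ^ (6 * j + 2) = -(x + 2) * (2 * x + 1)⁻¹ := by
    unfold IsRt at h
    rw [eq_mul_inv_iff_mul_eq₀ hs]
    linear_combination h
  have h2 : logHeight₁ (2 : K) ≤ Module.finrank ℚ K * Real.log 2 := by
    have := logHeight₁_add_le (1 : K) 1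
    rw [totalWeight_eq_finrank, one_add_one_eq_two] at this
    simpa using this
  have a1 := logHeight₁_pow x (6 * j + 2)
  have a2 := logHeight₁_mul_le (-(x + 2)) (2 * x + 1)⁻¹
  have a3 := logHeight₁_add_le x 2
  have a4 := logHeight₁_add_le (2 * x) 1
  have a5 := logHeight₁_mul_le 2 x
  rw [totalWeight_eq_finrank] at a3 a4
  rw [logHeight₁_neg, logHeight₁_inv, ← e, a1] at a2
  rw [logHeight₁_one] at a4
  push_cast at a2
  linarith

open IntermediateField in
theorem numberField_adjoin {Ω : Type*} [Field Ω] [CharZero Ω] (x : Ω) (hx : IsIntegral ℚ x) :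
    NumberField ℚ⟮x⟯ := by
  have : FiniteDimensional ℚ ℚ⟮x⟯ := adjoin.finiteDimensional hx
  exact {}

open IntermediateField in
theorem absLogHeight_eq {Ω : Type*} [Field Ω] [CharZero Ω] (x : Ω) (hx : IsIntegral ℚ x)
    [NumberField ℚ⟮x⟯] : absLogHeight₁ x
      = (Module.finrank ℚ ℚ⟮x⟯ : ℝ)⁻¹ * logHeight₁ (AdjoinSimple.gen ℚ x) := by
  unfold absLogHeight₁ absMulHeight₁
  rw [dif_pos hx, Real.log_rpow (mulHeight₁_pos _)]
  rfl

open IntermediateField in
theorem absLogHeight_upper {Ω : Type*} [Field Ω] [CharZero Ω] {j : ℕ} {x : Ω}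
    (hx : IsIntegral ℚ x) (h : IsRt j x) : (6 * j : ℝ) * absLogHeight₁ x ≤ 4 * Real.log 2 := by
  have := numberField_adjoin x hx
  have e := absLogHeight_eq x hx
  have h' : IsRt j (AdjoinSimple.gen ℚ x) := by
    unfold IsRt at *
    apply Subtype.ext
    exact h
  have := logHeight_upper h'
  have hd : (0 : ℝ) < Module.finrank ℚ ℚ⟮x⟯ := by exact_mod_cast Module.finrank_pos
  rw [e, mul_left_comm, inv_mul_le_iff₀ hd]
  linarith

open IntermediateField in
theorem absLogHeight_lower {Ω : Type*} [Field Ω] [CharZero Ω] [Algebra.IsAlgebraic ℚ Ω] (x : Ω)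
    (hreal : ∀ φ : Ω →+* ℂ, (φ x).im = 0) (hx : x ^ 3 - x ≠ 0) :
    Real.log 2 / 4 ≤ absLogHeight₁ x := by
  have := numberField_adjoin x (Algebra.IsIntegral.isIntegral x)
  have e := absLogHeight_eq x (Algebra.IsIntegral.isIntegral x)
  have h1 := mulHeight_lower (AdjoinSimple.gen ℚ x) (fun φ => by
    have : Algebra.IsAlgebraic ℚ⟮x⟯ Ω := Algebra.IsAlgebraic.tower_top (K := ℚ) _
    have := hreal (ComplexEmbedding.lift Ω φ)
    rw [← ComplexEmbedding.lift_algebraMap_apply Ω φ]
    exact this) (fun h0 => hx (by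
      have := congrArg Subtype.val h0
      exact this))
  have h2 := Real.log_le_log (by positivity) h1
  rw [Real.log_pow, Real.log_pow] at h2
  have hd : (0 : ℝ) < Module.finrank ℚ ℚ⟮x⟯ := by exact_mod_cast Module.finrank_pos
  rw [e, le_inv_mul_iff₀ hd, logHeight₁_eq_log_mulHeight₁]
  push_cast at h2
  linarith

end Pool.Agent.H559Z
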