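import Mathlib

/-!
The Bogomolov property for the multiplicative group over subfields of the algebraic closure of
the rationals.
-/

set_option autoImplicit false

namespace Pool.Agent.H559Z

/-- The torsion points of the multiplicative group over `F`: the roots of unity lying in `F`. -/
def torsionPts (F : IntermediateField ℚ (AlgebraicClosure ℚ)) : Set (AlgebraicClosure ℚ) :=
  {x | x ∈ F ∧ IsOfFinOrder x}

/-- `F` has the Bogomolov property for the multiplicative group: there is `ε > 0` such that every
nonzero element of `F` of absolute logarithmic Weil height less than `ε` is a root of unity. -/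
def HasBogomolov (F : IntermediateField ℚ (AlgebraicClosure ℚ)) : Prop :=
  ∃ ε : ℝ, 0 < ε ∧ ∀ x ∈ F, x ≠ 0 → NumberField.absLogHeight₁ x < ε → IsOfFinOrder x

end Pool.Agent.H559Z
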