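import Pool.Agent.H559Z.Inertia
import Pool.Agent.H559Z.Local

/-!
Roots of unity in a Galois number field generated by roots of the polynomials
`X^m (2X+1) + (X+2)`, `m = 6j+2`, have order dividing `728 * 63`.
-/

set_option autoImplicit false

namespace Pool.Agent.H559Z

open NumberField Polynomial

variable {L : Type*} [Field L] [NumberField L] [IsGalois ℚ L]

theorem pow_pow_six (hgen : Algebra.adjoin ℚ {x : L | ∃ j, IsRt j x} = ⊤) {ζ : L} {n : ℕ}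
    (hn : 0 < n) (hζ : IsPrimitiveRoot ζ n) (a : ℕ) (ha : a.Coprime n) : ζ ^ (a ^ 6) = ζ := by
  have : NeZero n := ⟨hn.ne'⟩
  let χ := hζ.autToPow ℚ
  let H : Subgroup Gal(L/ℚ) := ((powMonoidHom 6 : (ZMod n)ˣ →* (ZMod n)ˣ).ker).comap χ
  have hH : H = ⊤ := by
    apply eq_top_of_inertia_le
    intro Q hQ σ hσ
    have h6 : σ ^ 6 = 1 := by
      apply AlgEquiv.coe_toAlgHom_injective
      apply AlgHom.ext_of_adjoin_eq_top hgen
      rintro x ⟨j, hj⟩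
      exact pow_six Q σ hσ hj
    change (χ σ) ^ 6 = 1
    rw [← map_pow, h6, map_one]
  have hconj : IsConjRoot ℚ (ζ ^ a) ζ := by
    unfold IsConjRoot
    rw [← cyclotomic_eq_minpoly_rat hζ hn, ← cyclotomic_eq_minpoly_rat (hζ.pow_of_coprime a ha) hn]
  obtain ⟨σ, hσ⟩ := hconj.exists_algEquiv
  have hmem : σ ∈ H := by rw [hH]; trivial
  have h1 : χ (σ ^ 6) = 1 := by
    rw [map_pow]; exact hmem
  have h2 := hζ.autToPow_spec ℚ (σ ^ 6)
  have h3 : ∀ k : ℕ, (σ ^ k) ζ = ζ ^ (a ^ k) := by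
    intro k
    induction k with
    | zero => simp
    | succ k ih => rw [pow_succ', AlgEquiv.mul_apply, ih, map_pow, hσ, ← pow_mul, ← pow_succ']
  rw [← h3, ← h2]
  change ζ ^ ((χ (σ ^ 6) : (ZMod n)ˣ) : ZMod n).val = ζ
  rw [h1, Units.val_one, ZMod.val_one_eq_one_mod, ← pow_eq_pow_mod 1 hζ.pow_eq_one, pow_one]

theorem pow_eq_one_of_coprime (hgen : Algebra.adjoin ℚ {x : L | ∃ j, IsRt j x} = ⊤) {ζ : L}
    (hζ : IsOfFinOrder ζ) (a : ℕ) (ha0 : 0 < a) (ha : a.Coprime (orderOf ζ)) :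
    ζ ^ (a ^ 6 - 1) = 1 := by
  have h := pow_pow_six hgen hζ.orderOf_pos (IsPrimitiveRoot.orderOf ζ) a ha
  have h0 : ζ ≠ 0 := hζ.isUnit.ne_zero
  have h1 : a ^ 6 = (a ^ 6 - 1) + 1 := by
    have : 0 < a ^ 6 := by positivity
    omega
  rw [h1, pow_succ] at h
  exact mul_right_cancel₀ h0 (by rw [h, one_mul])

theorem torsion_pow (hgen : Algebra.adjoin ℚ {x : L | ∃ j, IsRt j x} = ⊤) {ζ : L}
    (hζ : IsOfFinOrder ζ) : ζ ^ (728 * 63) = 1 := by
  obtain ⟨k, u, hu, hku⟩ := Nat.exists_eq_two_pow_mul_odd hζ.orderOf_pos.ne'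
  have h1 : (ζ ^ u) ^ (3 ^ 6 - 1) = 1 := by
    apply pow_eq_one_of_coprime hgen (hζ.pow) 3 (by norm_num)
    have : orderOf (ζ ^ u) ∣ 2 ^ k := by
      apply orderOf_dvd_of_pow_eq_one
      rw [← pow_mul, mul_comm, ← hku, pow_orderOf_eq_one]
    exact Nat.Coprime.coprime_dvd_right this (Nat.Coprime.pow_right _ (by norm_num))
  have h2 : (ζ ^ (2 ^ k)) ^ (2 ^ 6 - 1) = 1 := by
    apply pow_eq_one_of_coprime hgen (hζ.pow) 2 (by norm_num)
    have : orderOf (ζ ^ (2 ^ k)) ∣ u := by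
      apply orderOf_dvd_of_pow_eq_one
      rw [← pow_mul, ← hku, pow_orderOf_eq_one]
    exact Nat.Coprime.coprime_dvd_right this (Nat.coprime_two_left.mpr hu)
  rw [← pow_mul, ← orderOf_dvd_iff_pow_eq_one, hku] at h1 h2
  rw [← orderOf_dvd_iff_pow_eq_one, hku]
  have hc : (2 ^ k).Coprime u := Nat.Coprime.pow_left _ (Nat.coprime_two_left.mpr hu)
  have a1 : 2 ^ k ∣ 728 := by
    have : 2 ^ k ∣ u * 728 := (Dvd.intro _ rfl).trans h1
    exact hc.dvd_of_dvd_mul_left this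
  have a2 : u ∣ 63 := by
    have : u ∣ 2 ^ k * 63 := (Dvd.intro_left _ rfl).trans h2
    exact hc.symm.dvd_of_dvd_mul_left this
  exact Nat.mul_dvd_mul a1 a2

end Pool.Agent.H559Z
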