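import Pool.Agent.H559Z.BogDefs
import Pool.Agent.H559Z.Torsion
import Pool.Agent.H559Z.Heights

/-!
The field generated by all roots of `X^m (2X+1) + (X+2)`, `m = 6j+2`, and its totally real
subfield.
-/

set_option autoImplicit false

namespace Pool.Agent.H559Z

open NumberField Polynomial IntermediateField

theorem algQbar : Algebra.IsAlgebraic ℚ (AlgebraicClosure ℚ) := AlgebraicClosure.isAlgebraic ℚ

theorem galQbar : IsGalois ℚ (AlgebraicClosure ℚ) := by
  have := algQbar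
  have : IsAlgClosure ℚ (AlgebraicClosure ℚ) := ⟨inferInstance, algQbar⟩
  have : Normal ℚ (AlgebraicClosure ℚ) := IsAlgClosure.normal ℚ (AlgebraicClosure ℚ)
  exact {}

attribute [local instance] algQbar galQbar

/-- The polynomial `X^m (2X+1) + (X+2)`, `m = 6j+2`. -/
noncomputable def poly (R : Type*) [CommRing R] (j : ℕ) : R[X] :=
  X ^ (6 * j + 2) * (2 * X + 1) + (X + 2)

theorem poly_ne_zero (R : Type*) [CommRing R] [CharZero R] (j : ℕ) : poly R j ≠ 0 := by
  intro h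
  have := congrArg (eval 0) h
  simp [poly] at this

theorem aeval_poly {A : Type*} [CommRing A] [Algebra ℚ A] (j : ℕ) (x : A) :
    aeval x (poly ℚ j) = 0 ↔ IsRt j x := by
  simp [poly, IsRt, map_ofNat]

/-- The product of the first `J` polynomials. -/
noncomputable def prodPoly (J : ℕ) : ℚ[X] := ∏ j ∈ Finset.range J, poly ℚ j

theorem prodPoly_ne_zero (J : ℕ) : prodPoly J ≠ 0 :=
  Finset.prod_ne_zero_iff.mpr fun j _ => poly_ne_zero ℚ j

theorem mem_rootSet_prodPoly {A : Type*} [Field A] [Algebra ℚ A] (J : ℕ) (x : A) :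
    x ∈ (prodPoly J).rootSet A ↔ ∃ j < J, IsRt j x := by
  rw [mem_rootSet_of_ne (prodPoly_ne_zero J), prodPoly, map_prod, Finset.prod_eq_zero_iff]
  simp [aeval_poly]

/-- The splitting field of the first `J` polynomials. -/
noncomputable def LJ (J : ℕ) : IntermediateField ℚ (AlgebraicClosure ℚ) :=
  adjoin ℚ ((prodPoly J).rootSet (AlgebraicClosure ℚ))

theorem LJ_splitting (J : ℕ) : (prodPoly J).IsSplittingField ℚ (LJ J) :=
  adjoin_rootSet_isSplittingField (IsAlgClosed.splits _)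

theorem LJ_normal (J : ℕ) : Normal ℚ (LJ J) :=
  Normal.of_isSplittingField (hFEp := LJ_splitting J)

theorem LJ_mono : Monotone LJ := by
  intro a b hab
  apply adjoin.mono
  intro x hx
  rw [mem_rootSet_prodPoly] at hx ⊢
  obtain ⟨j, hj, h⟩ := hx
  exact ⟨j, lt_of_lt_of_le hj hab, h⟩

/-- The big field. -/
noncomputable def bigF : IntermediateField ℚ (AlgebraicClosure ℚ) := ⨆ J, LJ J

theorem mem_bigF {x : AlgebraicClosure ℚ} : x ∈ bigF ↔ ∃ J, x ∈ LJ J := by
  have := IntermediateField.coe_iSup_of_directed (LJ_mono.directed_le)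
  change x ∈ ((⨆ J, LJ J : IntermediateField ℚ (AlgebraicClosure ℚ)) : Set _) ↔ _
  rw [this]
  simp

theorem bigF_isGalois : IsGalois ℚ bigF := by
  have : Normal ℚ bigF :=
    IntermediateField.normal_iSup ℚ (AlgebraicClosure ℚ) LJ (h := LJ_normal)
  exact {}

theorem root_mem_bigF {j : ℕ} {x : AlgebraicClosure ℚ} (h : IsRt j x) : x ∈ bigF :=
  mem_bigF.mpr ⟨j + 1, subset_adjoin _ _ ((mem_rootSet_prodPoly _ _).mpr ⟨j, by omega, h⟩)⟩

theorem torsion_bigF {x : AlgebraicClosure ℚ} (hx : x ∈ bigF) (ht : IsOfFinOrder x) :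
    x ^ (728 * 63) = 1 := by
  obtain ⟨J, hJ⟩ := mem_bigF.mp hx
  have hs := LJ_splitting J
  have := LJ_normal J
  have : FiniteDimensional ℚ (LJ J) := IsSplittingField.finiteDimensional _ (prodPoly J)
  have : NumberField (LJ J) := {}
  have : IsGalois ℚ (LJ J) := {}
  have hgen : Algebra.adjoin ℚ {x : LJ J | ∃ j, IsRt j x} = ⊤ := by
    rw [eq_top_iff, ← hs.adjoin_rootSet']
    apply Algebra.adjoin_mono
    intro y hy
    obtain ⟨j, -, h⟩ := (mem_rootSet_prodPoly J y).mp hy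
    exact ⟨j, h⟩
  have ht' : IsOfFinOrder (⟨x, hJ⟩ : LJ J) := by
    obtain ⟨n, hn, h⟩ := isOfFinOrder_iff_pow_eq_one.mp ht
    exact isOfFinOrder_iff_pow_eq_one.mpr ⟨n, hn, Subtype.ext h⟩
  exact congrArg Subtype.val (torsion_pow hgen ht')

theorem torsionPts_finite : (torsionPts bigF).Finite := by
  classical
  refine (nthRoots (728 * 63) (1 : AlgebraicClosure ℚ)).toFinset.finite_toSet.subset ?_
  rintro x ⟨hx, ht⟩
  simp only [Finset.mem_coe, Multiset.mem_toFinset]
  rw [mem_nthRoots (by norm_num)]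
  exact torsion_bigF hx ht

theorem norm_eq_one {j : ℕ} {z : ℂ} (h : IsRt j z) : ‖z‖ = 1 := by
  unfold IsRt at h
  have e : ‖z‖ ^ (6 * j + 2) * ‖2 * z + 1‖ = ‖z + 2‖ := by
    rw [← norm_pow, ← norm_mul, ← norm_neg (z + 2)]
    congr 1
    linear_combination h
  have hsq : ‖2 * z + 1‖ ^ 2 - ‖z + 2‖ ^ 2 = 3 * (‖z‖ ^ 2 - 1) := by
    simp only [Complex.sq_norm, Complex.normSq_apply]
    simp
    ring
  have n1 := norm_nonneg z
  have n2 := norm_nonneg (2 * z + 1)
  have n3 := norm_nonneg (z + 2)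
  rcases lt_trichotomy ‖z‖ 1 with h1 | h1 | h1
  · exfalso
    have : ‖z‖ ^ (6 * j + 2) ≤ 1 := pow_le_one₀ n1 h1.le
    have : ‖z + 2‖ ≤ ‖2 * z + 1‖ := by rw [← e]; exact mul_le_of_le_one_left n2 this
    nlinarith
  · exact h1
  · exfalso
    have : 1 ≤ ‖z‖ ^ (6 * j + 2) := one_le_pow₀ h1.le
    have : ‖2 * z + 1‖ ≤ ‖z + 2‖ := by rw [← e]; exact le_mul_of_one_le_left n2 this
    nlinarith

theorem conj_eq_inv {j : ℕ} {z : ℂ} (h : IsRt j z) : (starRingEnd ℂ) z = z⁻¹ := by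
  rw [Complex.inv_def, Complex.normSq_eq_norm_sq, norm_eq_one h]
  simp

theorem exists_conj : ∃ τ : Gal(AlgebraicClosure ℚ/ℚ), ∀ x ∈ bigF,
    ∀ φ : AlgebraicClosure ℚ →+* ℂ, φ (τ x) = (starRingEnd ℂ) (φ x) := by
  let φ₀ : AlgebraicClosure ℚ →+* ℂ := (IsAlgClosed.lift : AlgebraicClosure ℚ →ₐ[ℚ] ℂ)
  obtain ⟨σ, hσ⟩ := ComplexEmbedding.exists_comp_symm_eq_of_comp_eq (k := ℚ) φ₀
    ((starRingEnd ℂ).comp φ₀) (Subsingleton.elim _ _)
  have hroot : ∀ j x, IsRt j x → σ.symm x = x⁻¹ := by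
    intro j x hx
    apply φ₀.injective
    have := RingHom.congr_fun hσ x
    simp only [RingHom.coe_comp, Function.comp_apply, RingHom.coe_coe] at this
    rw [this, conj_eq_inv (hx.map φ₀), map_inv₀]
  refine ⟨σ.symm, fun x hx φ => ?_⟩
  obtain ⟨J, hJ⟩ := mem_bigF.mp hx
  clear hx
  unfold LJ at hJ
  induction hJ using adjoin_induction with
  | mem x hx =>
    obtain ⟨j, -, h⟩ := (mem_rootSet_prodPoly J x).mp hx
    rw [hroot j x h, conj_eq_inv (h.map φ), map_inv₀]
  | algebraMap q => simp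
  | add x y _ _ hx hy => simp only [map_add, hx, hy]
  | inv x _ hx => simp only [map_inv₀, hx]
  | mul x y _ _ hx hy => simp only [map_mul, hx, hy]

theorem exists_nontorsion_root (j : ℕ) :
    ∃ x : AlgebraicClosure ℚ, IsRt j x ∧ ¬ IsOfFinOrder x := by
  by_contra hcon
  push Not at hcon
  let P := poly (AlgebraicClosure ℚ) j
  have hP : P = C 2 * X ^ (6 * j + 3) + (X ^ (6 * j + 2) + X + C 2) := by
    simp only [P, poly, map_ofNat]
    ring
  have hdeg : P.natDegree = 6 * j + 3 := by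
    rw [hP]
    compute_degree!
  have hlc : P.leadingCoeff = 2 := by
    rw [leadingCoeff, hdeg, hP]
    simp [coeff_X, coeff_X_pow]
  have hnc : P.nextCoeff = 1 := by
    rw [nextCoeff_of_natDegree_pos (by omega), hdeg, hP]
    simp [coeff_X, coeff_X_pow]
  have hsum := (IsAlgClosed.splits P).nextCoeff_eq_neg_sum_roots_mul_leadingCoeff
  rw [hlc, hnc] at hsum
  have hint : IsIntegral ℤ P.roots.sum := by
    apply IsIntegral.multiset_sum
    intro x hx
    have hr : IsRt j x := by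
      have := (mem_roots (poly_ne_zero _ j)).mp hx
      simpa [poly, IsRt] using this
    obtain ⟨n, hn, h⟩ := isOfFinOrder_iff_pow_eq_one.mp (hcon x hr)
    exact IsIntegral.of_pow hn (h ▸ isIntegral_one)
  have e : P.roots.sum = algebraMap ℚ (AlgebraicClosure ℚ) (-1 / 2) := by
    simp only [map_div₀, map_neg, map_one, map_ofNat]
    linear_combination (1 / 2 : AlgebraicClosure ℚ) * hsum
  rw [e, isIntegral_algebraMap_iff (algebraMap ℚ (AlgebraicClosure ℚ)).injective] at hint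
  obtain ⟨y, hy⟩ := IsIntegrallyClosed.isIntegral_iff.mp hint
  have : (2 * y : ℤ) = -1 := by
    have h2 : (y : ℚ) = -1 / 2 := hy
    have : (2 * y : ℚ) = -1 := by rw [h2]; norm_num
    exact_mod_cast this
  omega

theorem not_hasBogomolov_bigF : ¬ HasBogomolov bigF := by
  rintro ⟨ε, hε, h⟩
  obtain ⟨j, hj⟩ := exists_nat_gt (4 * Real.log 2 / (6 * ε))
  obtain ⟨x, hx, hnt⟩ := exists_nontorsion_root j
  apply hnt
  apply h x (root_mem_bigF hx) hx.ne_zero
  have h1 := absLogHeight_upper (Algebra.IsIntegral.isIntegral x) hx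
  rw [div_lt_iff₀ (by positivity)] at hj
  by_contra hge
  push Not at hge
  have : (0 : ℝ) ≤ j := Nat.cast_nonneg j
  nlinarith

theorem main : ∃ (F₀ F : IntermediateField ℚ (AlgebraicClosure ℚ)) (h : F₀ ≤ F),
    HasBogomolov F₀ ∧ FiniteDimensional F₀ (extendScalars h) ∧ IsGalois ℚ F ∧
    (torsionPts F \ torsionPts F₀).Finite ∧ ¬ HasBogomolov F := by
  obtain ⟨τ, hτ⟩ := exists_conj
  let φ₀ : AlgebraicClosure ℚ →+* ℂ := (IsAlgClosed.lift : AlgebraicClosure ℚ →ₐ[ℚ] ℂ)
  have := bigF_isGalois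
  have hmem : ∀ x ∈ bigF, τ x ∈ bigF := by
    intro x hx
    have := (IntermediateField.normal_iff_forall_map_le'.mp (inferInstance : Normal ℚ bigF)) τ
    exact this ⟨x, hx, rfl⟩
  have hinv : ∀ x ∈ bigF, τ (τ x) = x := by
    intro x hx
    apply φ₀.injective
    rw [hτ _ (hmem x hx), hτ _ hx]
    simp
  let F₀ : IntermediateField ℚ (AlgebraicClosure ℚ) :=
    bigF ⊓ fixedField (Subgroup.zpowers τ)
  have hF₀ : ∀ x, x ∈ F₀ ↔ x ∈ bigF ∧ τ x = x := by
    intro x
    rw [IntermediateField.mem_inf, mem_fixedField_iff]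
    refine and_congr_right fun _ => ⟨fun h => h τ (Subgroup.mem_zpowers τ), fun h f hf => ?_⟩
    have : Subgroup.zpowers τ ≤ MulAction.stabilizer _ x := by
      rw [Subgroup.zpowers_le]
      exact h
    exact this hf
  refine ⟨F₀, bigF, inf_le_left, ?_, ?_, bigF_isGalois,
    torsionPts_finite.subset Set.sdiff_subset, not_hasBogomolov_bigF⟩
  · refine ⟨Real.log 2 / 4, by positivity, fun x hx hx0 hlt => ?_⟩
    obtain ⟨hx1, hx2⟩ := (hF₀ x).mp hx
    by_cases h3 : x ^ 3 - x = 0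
    · refine isOfFinOrder_iff_pow_eq_one.mpr ⟨2, by norm_num, ?_⟩
      apply mul_left_cancel₀ hx0
      linear_combination h3
    · exfalso
      refine absurd hlt (not_lt.mpr (absLogHeight_lower x (fun φ => ?_) h3))
      have := hτ x hx1 φ
      rw [hx2] at this
      exact Complex.conj_eq_iff_im.mp this.symm
  · obtain ⟨r, hr, hnt⟩ := exists_nontorsion_root 0
    have hrF := root_mem_bigF hr
    have hne : r - τ r ≠ 0 := by
      intro h0
      apply hnt
      have h1 : τ r = r := (sub_eq_zero.mp h0).symm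
      have h2 := hτ r hrF φ₀
      rw [h1, conj_eq_inv (hr.map φ₀), ← map_inv₀] at h2
      have h3 := φ₀.injective h2
      refine isOfFinOrder_iff_pow_eq_one.mpr ⟨2, by norm_num, ?_⟩
      rw [pow_two]
      nth_rewrite 2 [h3]
      exact mul_inv_cancel₀ hr.ne_zero
    have hle : F₀ ≤ bigF := inf_le_left
    classical
    let r' : extendScalars hle := ⟨r, hrF⟩
    refine ⟨⟨{1, r'}, ?_⟩⟩
    rw [eq_top_iff]
    rintro ⟨x, hx⟩ -
    have hx' : x ∈ bigF := hx
    have hb : (x - τ x) / (r - τ r) ∈ F₀ := by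
      rw [hF₀]
      refine ⟨div_mem (sub_mem hx' (hmem x hx')) (sub_mem hrF (hmem r hrF)), ?_⟩
      rw [map_div₀, map_sub, map_sub, hinv x hx', hinv r hrF, ← neg_sub x, ← neg_sub r,
        neg_div_neg_eq]
    have ha : x - (x - τ x) / (r - τ r) * r ∈ F₀ := by
      rw [hF₀]
      refine ⟨sub_mem hx' (mul_mem (hle hb) hrF), ?_⟩
      rw [map_sub, map_mul, ((hF₀ _).mp hb).2]
      field_simp
      ring
    rw [Finset.coe_pair, Submodule.mem_span_pair]
    refine ⟨⟨_, ha⟩, ⟨_, hb⟩, ?_⟩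
    apply Subtype.ext
    change (x - (x - τ x) / (r - τ r) * r) * 1 + (x - τ x) / (r - τ r) * r = x
    ring

end Pool.Agent.H559Z
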